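import Pool.Agent.R441.Num

/-!
Part (c), with the factor `B_k = binom(2k,k)²`, fails for `p = 11`.
-/

set_option autoImplicit false

namespace Pool.Agent.Results.MP_f8e877_nt.PartCFails

open Pool.Agent.R441 (CongMod not_congMod)

/-- `T_n(b,c) = ∑_j binom(n,2j) binom(2j,j) b^(n-2j) c^j` -/
def T (b c : ℤ) (n : ℕ) : ℤ :=
  ∑ j ∈ Finset.range (n / 2 + 1), (n.choose (2 * j) : ℤ) * ((2 * j).choose j : ℤ) * b ^ (n - 2 * j) * c ^ j

/-- `B_k = binom(2k,k)²` -/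
def B (k : ℕ) : ℤ := ((2 * k).choose k : ℤ) ^ 2

/-- `v_k = (-512)^(-k) T_{3k}(6,1)` -/
def v (k : ℕ) : ℚ := (T 6 1 (3 * k) : ℚ) / (-512) ^ k

/-- Part (c) of the conjecture for the prime `p` -/
def PartC (p : ℕ) : Prop :=
  CongMod p 2 (∑ k ∈ Finset.range p, ((35 * k + 9 : ℤ) : ℚ) * B k * v k)
    (9 / 32 * p * jacobiSym 2 p * (25 + 7 * jacobiSym p 7))

theorem jac1 : jacobiSym 2 11 = -1 := by norm_num

theorem jac2 : jacobiSym (11 : ℕ) 7 = 1 := by norm_num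

/-- There is a prime `p > 7` (namely `p = 11`) for which part (c) fails. -/
theorem result : ∃ p : ℕ, p = 11 ∧ p.Prime ∧ 7 < p ∧ ¬ PartC p := by
  refine ⟨11, rfl, by norm_num, by norm_num, ?_⟩
  unfold PartC
  rw [jac1, jac2]
  apply not_congMod (by norm_num)
  decide +kernel

end Pool.Agent.Results.MP_f8e877_nt.PartCFails
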